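import Mathlib
import Pool.Agent.Helper64.HK.Line

/-!
# Threefolds in `P^3 × P^3`, both types (`k = 1`, `m = 2` in the notation of HK): definitions

`X0 = ct (p0 x)`, `z0 = x 3`: a common fixed point of the two involutions with unipotent product.
`X1 = ct (p1 x)`, `z1 = x 7`: the second point at which the line through `X0` and `X1` touches the
branch surface; the line touches it at `X0` as well.

* `dBz c u z v`, `dFh c u z v`, `dps c u z v`: derivatives of `Ah z + Bh`, `Fh`, `psh` at `u` in the
  direction `v` (`z` is constant); `zps c u z`: the derivative of `psh` with respect to `z`.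
* `xi c u z`: the direction of the line in the factor `1`.
* `Eqn3`: the square system.
* `Pp3`: the product of the quantities which must not vanish (without those of the quartic).
-/

set_option autoImplicit false

namespace Pool.Agent.Helper77.H3

open Pool.Agent.Helper64.HK Polynomial
open Pool.Agent.Helper28.HN (I aff)

/-- The coordinates of the factor `1`. -/
abbrev T3 := Fin 1 × Fin (2 + 1)

section defs

variable {a : Fin (1 + 1) → Fin (2 + 1)} {S : Type*} [CommRing S]

/-- The first point. -/
def p0 (x : Fin 8 → S) : T3 → S := fun e => ![x 0, x 1, x 2] e.2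

/-- The second point. -/
def p1 (x : Fin 8 → S) : T3 → S := fun e => ![x 4, x 5, x 6] e.2

/-- The direction of the line. -/
def rr (x : Fin 8 → S) : T3 → S := fun e => p1 x e - p0 x e

/-- The line through `u` in the direction `v`. -/
noncomputable def lnP (u v : T3 → S) : T3 → S[X] := fun e => C (u e) + X * C (v e)

/-- The coefficients as constant polynomials. -/
noncomputable def cC (c : Ix a → S) : Ix a → S[X] := fun e => C (c e)

/-- The derivative of `Ah z + Bh` in the direction `v`. -/
noncomputable def dBz (c : Ix a → S) (u : T3 → S) (z : S) (v : T3 → S) : S :=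
  (Ah (cC c) (ct (lnP u v)) * C z + Bh (cC c) (ct (lnP u v))).derivative.eval 0

/-- The derivative of `Fh` in the direction `v`. -/
noncomputable def dFh (c : Ix a → S) (u : T3 → S) (z : S) (v : T3 → S) : S :=
  (Fh (cC c) (ct (lnP u v)) (C z)).derivative.eval 0

/-- The derivative of `psh` in the direction `v`. -/
noncomputable def dps (c : Ix a → S) (u : T3 → S) (z : S) (v : T3 → S) : S :=
  (psh (cC c) 1 (ct (lnP u v)) (C z)).derivative.eval 0

/-- The derivative of `psh` with respect to `z`. -/
noncomputable def zps (c : Ix a → S) (u : T3 → S) (z : S) : S :=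
  (psP c 1 (ct u)).derivative.eval z

/-- The direction of the line in the factor `1`. -/
noncomputable def xi (c : Ix a → S) (u : T3 → S) (z : S) : T3 → S :=
  fun e => vh c 1 (Xz c (ct u) z) e.2

/-- The square system. -/
noncomputable def Eqn3 (c : Ix a → S) (x : Fin 8 → S) : Fin 8 → S :=
  ![Fh c (ct (p0 x)) (x 3),
    Ah c (ct (p0 x)) * x 3 + Bh c (ct (p0 x)),
    psh c 1 (ct (p0 x)) (x 3),
    dBz c (p0 x) (x 3) (xi c (p0 x) (x 3)) * zps c (p0 x) (x 3) -
      kah c 1 (ct (p0 x)) (x 3) * Ah c (ct (p0 x)),
    dFh c (p0 x) (x 3) (rr x),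
    Fh c (ct (p1 x)) (x 7),
    Ah c (ct (p1 x)) * x 7 + Bh c (ct (p1 x)),
    dFh c (p1 x) (x 7) (rr x)]

/-- The product of the quantities which must not vanish. -/
noncomputable def Pp3 (c : Ix a → S) (x : Fin 8 → S) : S :=
  (Mx c (ct (p0 x))).det * (Mx c (ct (p1 x))).det * Ah c (ct (p0 x)) * Ah c (ct (p1 x)) *
    kah c 1 (ct (p0 x)) (x 3) *
    (kah c 1 (ct (p0 x)) (x 3) * dBz c (p0 x) (x 3) (rr x) -
      dBz c (p0 x) (x 3) (xi c (p0 x) (x 3)) * dps c (p0 x) (x 3) (rr x))

/-- The coefficients of the quartic `q` with `b = (s (1 - s)) ^ 2 q`, from those of `b`. -/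
def ec (b : S[X]) : Fin 4 → S :=
  ![b.coeff 2, b.coeff 3 + 2 * b.coeff 2, b.coeff 4 + 2 * b.coeff 3 + 3 * b.coeff 2,
    b.coeff 5 + 2 * b.coeff 4 + 3 * b.coeff 3 + 4 * b.coeff 2]

/-- This does not vanish if and only if `q 0 ≠ 0` and `q` is not a constant times a square up to
`s ^ 4`. -/
def G3 (b : S[X]) : S :=
  ec b 0 * (8 * ec b 0 ^ 2 * ec b 3 - ec b 1 * (4 * ec b 0 * ec b 2 - ec b 1 ^ 2))

end defs

end Pool.Agent.Helper77.H3
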