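import Mathlib
import Pool.Agent.Helper77.H3.Defs
import Pool.Agent.Helper64.HK.BdDeg

/-!
# Threefolds in `P^3 × P^3`: configurations

* `b3 c x`: the polynomial `bd` on the line through the two points.
* `Cfg3 c x`: the equations and inequalities of a configuration.
* `Ex3 a`: configurations exist for general coefficients.
-/

set_option autoImplicit false

namespace Pool.Agent.Helper77.H3

open Pool.Agent.Helper64.HK
open Pool.Agent.Helper28.HN (I aff)

section defs2

variable {a : Fin (1 + 1) → Fin (2 + 1)} {S : Type*} [CommRing S]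

/-- `bd` on the line through the two points. -/
noncomputable def b3 (c : Ix a → S) (x : Fin 8 → S) : Polynomial S :=
  bd (cC c) (ct (lnP (p0 x) (rr x)))

/-- A configuration. -/
structure Cfg3 (c : Ix a → S) (x : Fin 8 → S) : Prop where
  hE : ∀ i, Eqn3 c x i = 0
  hP : Pp3 c x ≠ 0
  hG : G3 (b3 c x) ≠ 0

/-- Configurations exist for general coefficients. -/
def Ex3 (a : Fin (1 + 1) → Fin (2 + 1)) : Prop :=
  ∃ Δ : MvPolynomial (Ix a) ℚ, Δ ≠ 0 ∧
    ∀ (K : Type) [Field K] [NumberField K] (c : Ix a → K), MvPolynomial.aeval c Δ ≠ 0 →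
      ∃ (L : Type) (_ : Field L) (_ : NumberField L) (_ : Algebra K L) (x : Fin 8 → L),
        Cfg3 (fun e => algebraMap K L (c e)) x

end defs2

end Pool.Agent.Helper77.H3
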