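import Mathlib
import Pool.Agent.Helper77.H3.Defs
import Pool.Agent.Helper77.HK.NS
import Pool.Agent.Helper37.HK.Zch

/-!
# Threefolds in `P^3 × P^3`: points of the closure with power series coordinates, first order
-/

set_option autoImplicit false

namespace Pool.Agent.Helper77.H3

open Pool.Agent.Helper64.HK MvPolynomial
open Pool.Agent.Helper28.HN (I aff)
open Pool.Agent.Helper77.HK (dd dd_add dd_mul dd_C dd_X dd_mul_X dd_lin dd_line)
open Pool.Agent.Helper37.HK (Zc cL)

/-! ### Power series -/

section jet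

variable {σ : Type*} {L : Type*} [Field L]

theorem jet_zero (x : σ → PowerSeries L) (P : MvPolynomial σ L) :
    PowerSeries.constantCoeff (aeval x P) = eval (fun i => PowerSeries.constantCoeff (x i)) P := by
  induction P using MvPolynomial.induction_on with
  | C a => simp
  | add p q hp hq => rw [map_add, map_add, map_add, hp, hq]
  | mul_X p i hp => rw [map_mul, map_mul, map_mul, hp, aeval_X, eval_X]

theorem jet_one [Fintype σ] (x : σ → PowerSeries L) (P : MvPolynomial σ L) :
    PowerSeries.coeff 1 (aeval x P) = dd (fun i => PowerSeries.constantCoeff (x i))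
      (fun i => PowerSeries.coeff 1 (x i)) P := by
  induction P using MvPolynomial.induction_on with
  | C a =>
    rw [dd_C, aeval_C, PowerSeries.algebraMap_apply, PowerSeries.coeff_C, if_neg one_ne_zero]
  | add p q hp hq => rw [map_add, map_add, hp, hq, dd_add]
  | mul_X p i hp =>
    rw [map_mul, aeval_X, PowerSeries.coeff_one_mul, hp, dd_mul_X, jet_zero]
    ring

end jet

section step

variable {a : Fin (1 + 1) → Fin (2 + 1)} {L : Type*} [Field L]

/-- `psh` as a polynomial in `t` and `z` (`none`). -/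
noncomputable def PsP (c : Ix a → L) : MvPolynomial (Option T3) L :=
  psh (fun e => C (c e)) 1 (ct fun e => X (some e)) (X none)

/-- `Ah z + Bh` as a polynomial in `t` and `z` (`none`). -/
noncomputable def BzP (c : Ix a → L) : MvPolynomial (Option T3) L :=
  Ah (fun e => C (c e)) (ct fun e => X (some e)) * X none +
    Bh (fun e => C (c e)) (ct fun e => X (some e))

/-- A point with the coordinates `u` of `t` and `z`. -/
def pz {S : Type*} (u : T3 → S) (z : S) : Option T3 → S := fun o => o.elim z u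

section e2

variable {S : Type*} [CommRing S] [Algebra L S] (c : Ix a → L) (u : T3 → S) (z : S)

theorem ae_c : (fun e => aeval (pz u z) (C (c e) : MvPolynomial (Option T3) L)) =
    fun e => algebraMap L S (c e) := by
  funext e
  exact aeval_C _ _

theorem ae_ct : (fun l i => aeval (pz u z) ((ct fun e => X (some e) : Fin (1 + 1) → I 2 →
    MvPolynomial (Option T3) L) l i)) = ct u := by
  have h := map_ct (aeval (pz u z) : MvPolynomial (Option T3) L →ₐ[L] S).toRingHom
    (fun e : T3 => X (some e))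
  refine Eq.trans h ?_
  congr 1
  funext e
  exact aeval_X _ _

theorem aeval_PsP : aeval (pz u z) (PsP c) =
    psh (fun e => algebraMap L S (c e)) 1 (ct u) z := by
  have h := map_psh (fun e => C (c e)) (aeval (pz u z) :
    MvPolynomial (Option T3) L →ₐ[L] S).toRingHom 1 (ct fun e => X (some e)) (X none)
  refine Eq.trans h ?_
  have h1 := ae_c c u z
  have h2 := ae_ct (L := L) u z
  have h3 : aeval (pz u z) (X none : MvPolynomial (Option T3) L) = z := aeval_X _ _
  change psh (fun e => aeval (pz u z) (C (c e))) 1 (fun l i => aeval (pz u z) _)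
    (aeval (pz u z) (X none)) = _
  rw [h1, h2, h3]

theorem aeval_BzP : aeval (pz u z) (BzP c) =
    Ah (fun e => algebraMap L S (c e)) (ct u) * z +
      Bh (fun e => algebraMap L S (c e)) (ct u) := by
  have h := map_Ah (fun e => C (c e)) (aeval (pz u z) :
    MvPolynomial (Option T3) L →ₐ[L] S).toRingHom (ct fun e => X (some e))
  have h' := map_Bh (fun e => C (c e)) (aeval (pz u z) :
    MvPolynomial (Option T3) L →ₐ[L] S).toRingHom (ct fun e => X (some e))
  have h1 := ae_c c u z
  have h2 := ae_ct (L := L) u z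
  have h3 : aeval (pz u z) (X none : MvPolynomial (Option T3) L) = z := aeval_X _ _
  change aeval (pz u z) _ = Ah (fun e => aeval (pz u z) (C (c e)))
    (fun l i => aeval (pz u z) _) at h
  change aeval (pz u z) _ = Bh (fun e => aeval (pz u z) (C (c e)))
    (fun l i => aeval (pz u z) _) at h'
  rw [h1, h2] at h h'
  rw [BzP, map_add, map_mul, h, h', h3]

end e2

/-- The field of fractions of the power series. -/
abbrev EE (L : Type*) [Field L] := FractionRing (PowerSeries L)

theorem em_inj : Function.Injective (algebraMap (PowerSeries L) (EE L)) :=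
  IsFractionRing.injective _ _

theorem em_ne {f : PowerSeries L} (h : PowerSeries.constantCoeff f ≠ 0) :
    algebraMap (PowerSeries L) (EE L) f ≠ 0 := by
  intro h0
  have h1 := em_inj (h0.trans (map_zero _).symm)
  exact h (by rw [h1, map_zero])

/-- The coefficients as power series. -/
noncomputable def cR (c : Ix a → L) : Ix a → PowerSeries L :=
  fun e => algebraMap L (PowerSeries L) (c e)

theorem em_cR (c : Ix a → L) : (fun e => algebraMap (PowerSeries L) (EE L) (cR c e)) =
    cL (EE L) c := by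
  funext e
  exact (IsScalarTower.algebraMap_apply L (PowerSeries L) (EE L) (c e)).symm

theorem cc_cR (c : Ix a → L) : (fun e => PowerSeries.constantCoeff (cR c e)) = c := by
  funext e
  simp [cR, PowerSeries.algebraMap_apply]

/-- A point of the closure with power series coordinates with the first coefficients `w`, `ζ`. -/
def St (c : Ix a → L) (u0 : T3 → L) (z0 : L) (w : T3 → L) (ζ : L) : Prop :=
  ∃ (u : T3 → PowerSeries L) (z : PowerSeries L),
    (∀ e, PowerSeries.constantCoeff (u e) = u0 e) ∧ PowerSeries.constantCoeff z = z0 ∧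
    (∀ e, PowerSeries.coeff 1 (u e) = w e) ∧ PowerSeries.coeff 1 z = ζ ∧
    Zc c (Xz (cL (EE L) c) (ct fun e => algebraMap (PowerSeries L) (EE L) (u e))
      (algebraMap (PowerSeries L) (EE L) z))

variable {c : Ix a → L} {u0 : T3 → L} {z0 : L} {w : T3 → L} {ζ : L}

theorem cc_ct {u : T3 → PowerSeries L} (hu : ∀ e, PowerSeries.constantCoeff (u e) = u0 e) :
    (fun l i => PowerSeries.constantCoeff ((ct u : Fin (1 + 1) → I 2 → PowerSeries L) l i)) =
      ct u0 := by
  rw [map_ct]
  congr 1
  funext e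
  exact hu e

theorem em_ct (u : T3 → PowerSeries L) :
    (fun l i => algebraMap (PowerSeries L) (EE L)
      ((ct u : Fin (1 + 1) → I 2 → PowerSeries L) l i)) =
      ct fun e => algebraMap (PowerSeries L) (EE L) (u e) := map_ct _ u

/-- The first coefficient of `psh`. -/
theorem psh_jet {u : T3 → PowerSeries L} {z : PowerSeries L}
    (hu : ∀ e, PowerSeries.constantCoeff (u e) = u0 e) (hz : PowerSeries.constantCoeff z = z0)
    (hw : ∀ e, PowerSeries.coeff 1 (u e) = w e) (hζ : PowerSeries.coeff 1 z = ζ) :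
    PowerSeries.coeff 1 (psh (cR c) 1 (ct u) z) = dd (pz u0 z0) (pz w ζ) (PsP c) := by
  have h := jet_one (pz u z) (PsP c)
  rw [aeval_PsP] at h
  refine Eq.trans h ?_
  congr 1
  · funext o
    cases o with
    | none => exact hz
    | some e => exact hu e
  · funext o
    cases o with
    | none => exact hζ
    | some e => exact hw e

/-- The first coefficient of `Ah z + Bh`. -/
theorem bz_jet {u : T3 → PowerSeries L} {z : PowerSeries L}
    (hu : ∀ e, PowerSeries.constantCoeff (u e) = u0 e) (hz : PowerSeries.constantCoeff z = z0)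
    (hw : ∀ e, PowerSeries.coeff 1 (u e) = w e) (hζ : PowerSeries.coeff 1 z = ζ) :
    PowerSeries.coeff 1 (Ah (cR c) (ct u) * z + Bh (cR c) (ct u)) =
      dd (pz u0 z0) (pz w ζ) (BzP c) := by
  have h := jet_one (pz u z) (BzP c)
  rw [aeval_BzP] at h
  refine Eq.trans h ?_
  congr 1
  · funext o
    cases o with
    | none => exact hz
    | some e => exact hu e
  · funext o
    cases o with
    | none => exact hζ
    | some e => exact hw e

theorem det_ne {u : T3 → PowerSeries L} (hu : ∀ e, PowerSeries.constantCoeff (u e) = u0 e)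
    (hD : (Mx c (ct u0)).det ≠ 0) : (Mx (cL (EE L) c) (ct fun e =>
      algebraMap (PowerSeries L) (EE L) (u e))).det ≠ 0 := by
  have h := map_det_Mx (cR c) (algebraMap (PowerSeries L) (EE L)) (ct u)
  rw [em_cR, em_ct] at h
  rw [← h]
  refine em_ne ?_
  rw [map_det_Mx, cc_cR, cc_ct hu]
  exact hD

/-- The involution of the factor `1`. -/
theorem step_t [Infinite L] (hD : (Mx c (ct u0)).det ≠ 0) (hk : kah c 1 (ct u0) z0 ≠ 0)
    (hp : psh c 1 (ct u0) z0 = 0) (h : St c u0 z0 w ζ) :
    St c u0 z0 (fun e => w e - 2 * dd (pz u0 z0) (pz w ζ) (PsP c) / kah c 1 (ct u0) z0 *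
      xi c u0 z0 e) ζ := by
  obtain ⟨u, z, hu, hz, hw, hζ, hm⟩ := h
  obtain ⟨kR, hkR⟩ : ∃ k, k = kah (cR c) 1 (ct u) z := ⟨_, rfl⟩
  obtain ⟨pR, hpR⟩ : ∃ k, k = psh (cR c) 1 (ct u) z := ⟨_, rfl⟩
  have hk0 : PowerSeries.constantCoeff kR = kah c 1 (ct u0) z0 := by
    rw [hkR, map_kah, cc_cR, cc_ct hu, hz]
  have hp0 : PowerSeries.constantCoeff pR = 0 := by
    rw [hpR, map_psh, cc_cR, cc_ct hu, hz, hp]
  have hkne : PowerSeries.constantCoeff kR ≠ 0 := by rw [hk0]; exact hk
  obtain ⟨t, ht⟩ : ∃ t, t = 2 * pR * kR⁻¹ := ⟨_, rfl⟩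
  have htk : t * kR = 2 * pR := by
    rw [ht, mul_assoc, PowerSeries.inv_mul_cancel _ hkne, mul_one]
  have ht0 : PowerSeries.constantCoeff t = 0 := by
    rw [ht, map_mul, map_mul, hp0, mul_zero, zero_mul]
  have ht1 : PowerSeries.coeff 1 t = 2 * dd (pz u0 z0) (pz w ζ) (PsP c) /
      kah c 1 (ct u0) z0 := by
    have h1 := congrArg (PowerSeries.coeff 1) htk
    rw [PowerSeries.coeff_one_mul, PowerSeries.coeff_one_mul, ht0, mul_zero, add_zero, hk0, hp0,
      mul_zero, zero_add, hpR, psh_jet hu hz hw hζ, map_ofNat] at h1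
    rw [eq_div_iff hk, h1]
    ring
  refine ⟨fun e => u e - t * vh (cR c) 1 (Xz (cR c) (ct u) z) e.2, z, ?_, hz, ?_, hζ, ?_⟩
  · intro e
    rw [map_sub, map_mul, ht0, zero_mul, sub_zero, hu]
  · intro e
    rw [map_sub, PowerSeries.coeff_one_mul, ht0, mul_zero, add_zero, ht1, hw]
    congr 1
    congr 1
    have h1 := congrFun (map_vh (cR c) PowerSeries.constantCoeff 1 (Xz (cR c) (ct u) z)) e.2
    rw [map_Xz, cc_cR, cc_ct hu, hz] at h1
    exact h1
  · have h1 := Pool.Agent.Helper37.HK.z_ct_nx (t := algebraMap (PowerSeries L) (EE L) t) 0 hm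
      (det_ne hu hD) ?_ ?_
    · have e1 : (fun e : T3 => algebraMap (PowerSeries L) (EE L)
          (u e - t * vh (cR c) 1 (Xz (cR c) (ct u) z) e.2)) =
          fun e => algebraMap (PowerSeries L) (EE L) (u e) -
            algebraMap (PowerSeries L) (EE L) t * if e.1 = 0 then
              vh (cL (EE L) c) (Fin.succ 0) (Xz (cL (EE L) c) (ct fun e =>
                algebraMap (PowerSeries L) (EE L) (u e)) (algebraMap (PowerSeries L) (EE L) z)) e.2
            else 0 := by
        funext e
        have h2 : e.1 = 0 := Subsingleton.elim _ _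
        have h3 := congrFun (map_vh (cR c) (algebraMap (PowerSeries L) (EE L)) 1
          (Xz (cR c) (ct u) z)) e.2
        rw [map_Xz, em_cR, em_ct] at h3
        rw [map_sub, map_mul, if_pos h2, h3]
        rfl
      rw [e1]
      exact h1
    · have h2 := map_kah (cR c) (algebraMap (PowerSeries L) (EE L)) 1 (ct u) z
      rw [em_cR, em_ct] at h2
      have h3 : algebraMap (PowerSeries L) (EE L) kR ≠ 0 := em_ne hkne
      rw [hkR, h2] at h3
      exact h3
    · have h2 := map_kah (cR c) (algebraMap (PowerSeries L) (EE L)) 1 (ct u) z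
      have h3 := map_psh (cR c) (algebraMap (PowerSeries L) (EE L)) 1 (ct u) z
      have h4 := congrArg (algebraMap (PowerSeries L) (EE L)) htk
      rw [map_mul, map_mul, map_ofNat, hkR, hpR, h2, h3, em_cR, em_ct] at h4
      exact h4

/-- The involution of the factor `0`. -/
theorem step_z [Infinite L] (hA : Ah c (ct u0) ≠ 0) (hB : Ah c (ct u0) * z0 + Bh c (ct u0) = 0)
    (h : St c u0 z0 w ζ) :
    St c u0 z0 w (ζ - 2 * dd (pz u0 z0) (pz w ζ) (BzP c) / Ah c (ct u0)) := by
  obtain ⟨u, z, hu, hz, hw, hζ, hm⟩ := h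
  obtain ⟨AR, hAR⟩ : ∃ k, k = Ah (cR c) (ct u) := ⟨_, rfl⟩
  obtain ⟨bR, hbR⟩ : ∃ k, k = Ah (cR c) (ct u) * z + Bh (cR c) (ct u) := ⟨_, rfl⟩
  have hA0 : PowerSeries.constantCoeff AR = Ah c (ct u0) := by
    rw [hAR, map_Ah, cc_cR, cc_ct hu]
  have hb0 : PowerSeries.constantCoeff bR = 0 := by
    rw [hbR, map_add, map_mul, map_Ah, map_Bh, cc_cR, cc_ct hu, hz, hB]
  have hAne : PowerSeries.constantCoeff AR ≠ 0 := by rw [hA0]; exact hA
  obtain ⟨t, ht⟩ : ∃ t, t = 2 * bR * AR⁻¹ := ⟨_, rfl⟩
  have htA : t * AR = 2 * bR := by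
    rw [ht, mul_assoc, PowerSeries.inv_mul_cancel _ hAne, mul_one]
  have ht0 : PowerSeries.constantCoeff t = 0 := by
    rw [ht, map_mul, map_mul, hb0, mul_zero, zero_mul]
  have ht1 : PowerSeries.coeff 1 t = 2 * dd (pz u0 z0) (pz w ζ) (BzP c) / Ah c (ct u0) := by
    have h1 := congrArg (PowerSeries.coeff 1) htA
    rw [PowerSeries.coeff_one_mul, PowerSeries.coeff_one_mul, ht0, mul_zero, add_zero, hA0, hb0,
      mul_zero, zero_add, hbR, bz_jet hu hz hw hζ, map_ofNat] at h1
    rw [eq_div_iff hA, h1]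
    ring
  refine ⟨u, z - t, hu, ?_, hw, ?_, ?_⟩
  · rw [map_sub, ht0, sub_zero, hz]
  · rw [map_sub, ht1, hζ]
  · have hAE := map_Ah (cR c) (algebraMap (PowerSeries L) (EE L)) (ct u)
    have hBE := map_Bh (cR c) (algebraMap (PowerSeries L) (EE L)) (ct u)
    rw [em_cR, em_ct] at hAE hBE
    refine Pool.Agent.Helper37.HK.z_ny hm ?_ ?_
    · rw [← hAE, ← hAR]
      exact em_ne hAne
    · rw [← hAE, ← hBE, ← map_mul, ← map_mul, ← map_ofNat (algebraMap (PowerSeries L) (EE L)) 2,
        ← map_mul, ← map_neg, ← map_sub]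
      congr 1
      rw [← hAR] at hbR ⊢
      linear_combination (-1 : PowerSeries L) * htA + (-2) * hbR

end step

end Pool.Agent.Helper77.H3
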