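import Mathlib
import Pool.Agent.Helper64.HK.Line
import Pool.Agent.Helper37.HK.Hom

/-!
# The derivative of `psh` in the direction of the line

`x` is moved by `e * ξ` where `ξ` is the direction of the line in the factor `j + 1` and `e ^ 2 = 0`.
If `psh = 0`, then `psh` of the new point is `e * kah`, up to the scaling of the factor `0`.
-/

set_option autoImplicit false

namespace Pool.Agent.Helper77.H3

open Pool.Agent.Helper64.HK Function
open Pool.Agent.Helper37.HK (sc wt dt)
open Pool.Agent.Helper28.HN (I aff)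

section eps

variable {k m : ℕ} {a : Fin (k + 1) → Fin (m + 1)} {R : Type*} [CommRing R] (c : Ix a → R)
  (j : Fin k) (X : Fin (k + 1) → I m → R) (z e : R)

/-- The moved point. -/
noncomputable def mv : Fin (k + 1) → I m → R :=
  update X j.succ fun i => 1 * X j.succ i + e * xh c j.succ (Xz c X z) i

theorem upd_Xz : update (Xz c X z) j.succ (X j.succ) = Xz c X z := by
  rw [← Xz_succ c (X := X) (z := z) j, update_eq_self]

theorem upd_mv (y : I m → R) : update (mv c j X z e) 0 y =
    update (update X 0 y) j.succ fun i => 1 * X j.succ i + e * xh c j.succ (Xz c X z) i := by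
  rw [mv, update_comm (Fin.succ_ne_zero j)]

theorem rf_mv (he : e * e = 0) (hp : psh c j.succ X z = 0) (r : Fin m) :
    rf c 0 (mv c j X z e) r (yh c X z) = 0 := by
  have hP : ∀ i, Ef c ((a 0).succAbove i) (Xz c X z) = 0 := fun i => rf_yh c X z i
  have h0 : rf c 0 (mv c j X z e) r (yh c X z) = Ef c ((a 0).succAbove r)
      (update (Xz c X z) j.succ fun i => 1 * X j.succ i + e * xh c j.succ (Xz c X z) i) := by
    rw [rf, upd_mv]
    rfl
  rw [h0]
  by_cases h : a j.succ = (a 0).succAbove r
  · rw [← h, Ef_quad, upd_Xz, h, hP]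
    have h1 : Pf c j.succ (Xz c X z) (X j.succ) (xh c j.succ (Xz c X z)) = 0 := hp
    rw [h1]
    linear_combination (Ef c ((a 0).succAbove r)
      (update (Xz c X z) j.succ (xh c j.succ (Xz c X z)))) * he
  · rw [Ef_comb c h, upd_Xz, hP]
    rcases Fin.eq_self_or_eq_succAbove (a j.succ) ((a 0).succAbove r) with h1 | ⟨r', h1⟩
    · exact absurd h1.symm h
    · have h2 := rf_xh c j.succ (Xz c X z) r'
      unfold rf at h2
      rw [h1, h2]
      ring

/-- The line in the factor `0` over the moved point. -/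
theorem yh_mv (he : e * e = 0) (hp : psh c j.succ X z = 0) (i : I m) :
    (Mx c (mv c j X z e)).det * yh c X z i = (Mx c X).det * yh c (mv c j X z e) z i := by
  have h := det_mul_eq c (mv c j X z e) z (yh c X z) (rf_mv c j X z e he hp)
    (by rw [yh_one, yh_zero]) i
  rw [h, yh_zero]

/-- `psh` at the moved point. -/
theorem psh_mv (he : e * e = 0) (hp : psh c j.succ X z = 0) {lam : R}
    (hl : (Mx c (mv c j X z e)).det = lam * (Mx c X).det) (hD : IsUnit (Mx c X).det) :
    ∃ N : ℕ, psh c j.succ (mv c j X z e) z = lam ^ N * (e * kah c j.succ X z) := by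
  have hy : yh c (mv c j X z e) z = fun i => lam * yh c X z i := by
    funext i
    have h := yh_mv c j X z e he hp i
    rw [hl] at h
    refine hD.mul_left_cancel ?_
    rw [← h]
    ring
  have hN : ∃ N : ℕ, wt a (a j.succ) (update (update (1 : Fin (k + 1) → R) 0 lam) j.succ 1) *
      (1 * dt a j.succ (update (1 : Fin (k + 1) → R) 0 lam)) = lam ^ N := by
    have h0 : (0 : Fin (k + 1)) ≠ j.succ := (Fin.succ_ne_zero j).symm
    rw [Pool.Agent.Helper37.HK.update_single_ne h0, Pool.Agent.Helper37.HK.wt_single,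
      Pool.Agent.Helper37.HK.dt_single h0]
    split_ifs
    · exact ⟨2 + m, by ring⟩
    · exact ⟨1 + (m + 1), by ring⟩
  obtain ⟨N, hN⟩ := hN
  refine ⟨N, ?_⟩
  have h1 : Xz c (mv c j X z e) z = update
      (Pool.Agent.Helper37.HK.sc (update (1 : Fin (k + 1) → R) 0 lam) (Xz c X z)) j.succ
      fun i => 1 * X j.succ i + e * xh c j.succ (Xz c X z) i := by
    rw [Pool.Agent.Helper37.HK.sc_single, Xz, hy, upd_mv]
    congr 1
    rw [Xz, update_idem, update_self]
  have h2 : mv c j X z e j.succ = fun i =>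
      1 * X j.succ i + e * xh c j.succ (Xz c X z) i := by
    rw [mv, update_self]
  rw [psh, h1, h2, Pf_upd, xh_upd, Pool.Agent.Helper37.HK.xh_sc]
  have h3 := Pool.Agent.Helper37.HK.Pf_sc c j.succ (update (1 : Fin (k + 1) → R) 0 lam)
    (Xz c X z) 1 (dt a j.succ (update (1 : Fin (k + 1) → R) 0 lam))
    (fun i => 1 * X j.succ i + e * xh c j.succ (Xz c X z) i) (xh c j.succ (Xz c X z))
  have e1 : (fun i => 1 * (1 * X j.succ i + e * xh c j.succ (Xz c X z) i)) =
      fun i => 1 * X j.succ i + e * xh c j.succ (Xz c X z) i := funext fun i => one_mul _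
  rw [e1] at h3
  have h4 : Pf c j.succ (Xz c X z) (X j.succ) (xh c j.succ (Xz c X z)) = 0 := hp
  rw [h3, hN, Pf_comb_l, h4, kah]
  ring

end eps

end Pool.Agent.Helper77.H3
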