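import Mathlib
import Pool.Agent.Helper77.H3.Defs
import Pool.Agent.Helper77.H3.Eps

/-!
# The derivative of `psh` in the direction of the line, via dual numbers
-/

set_option autoImplicit false

namespace Pool.Agent.Helper77.H3

open Pool.Agent.Helper64.HK Function
open Pool.Agent.Helper28.HN (I aff)

section dual

/-- The value and the derivative at `0`. -/
noncomputable def ph (L : Type*) [CommRing L] : Polynomial L →+* DualNumber L :=
  Polynomial.eval₂RingHom (TrivSqZeroExt.inlHom L L) DualNumber.eps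

variable {L : Type*} [CommRing L]

theorem ph_C (x : L) : ph L (Polynomial.C x) = TrivSqZeroExt.inl x := by
  simp [ph]

theorem ph_X : ph L Polynomial.X = DualNumber.eps := by
  simp [ph]

theorem ph_both (f : Polynomial L) :
    (ph L f).fst = f.eval 0 ∧ (ph L f).snd = f.derivative.eval 0 := by
  induction f using Polynomial.induction_on' with
  | add p q hp hq => simp [hp.1, hp.2, hq.1, hq.2]
  | monomial n x =>
    rw [← Polynomial.C_mul_X_pow_eq_monomial]
    induction n with
    | zero => simp [ph_C]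
    | succ n ih =>
      rw [pow_succ, ← mul_assoc, map_mul, ph_X]
      constructor
      · simp
      · have h := ih.1
        simp only [TrivSqZeroExt.snd_mul, DualNumber.snd_eps, DualNumber.fst_eps]
        rw [h]
        simp

end dual

variable {a : Fin (1 + 1) → Fin (2 + 1)} {L : Type*} [Field L]

/-- The derivative of `psh` in the direction of the line is `kah`. -/
theorem dps_xi (c : Ix a → L) (u : T3 → L) (z : L) (hD : (Mx c (ct u)).det ≠ 0)
    (hp : psh c 1 (ct u) z = 0) : dps c u z (xi c u z) = kah c 1 (ct u) z := by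
  obtain ⟨c', hc'⟩ : ∃ c' : Ix a → DualNumber L, c' = fun e => TrivSqZeroExt.inlHom L L (c e) :=
    ⟨_, rfl⟩
  obtain ⟨X', hX'⟩ : ∃ X' : Fin (1 + 1) → I 2 → DualNumber L,
      X' = fun l i => TrivSqZeroExt.inlHom L L (ct u l i) := ⟨_, rfl⟩
  obtain ⟨z', hz'⟩ : ∃ z' : DualNumber L, z' = TrivSqZeroExt.inlHom L L z := ⟨_, rfl⟩
  have he : (DualNumber.eps : DualNumber L) * DualNumber.eps = 0 := DualNumber.eps_mul_eps
  have hp' : psh c' (Fin.succ 0) X' z' = 0 := by
    rw [hc', hX', hz', ← map_psh]
    change TrivSqZeroExt.inlHom L L (psh c 1 (ct u) z) = 0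
    rw [hp, map_zero]
  have hD' : (Mx c' X').det = TrivSqZeroExt.inlHom L L (Mx c (ct u)).det := by
    rw [hc', hX', ← map_det_Mx]
  have hDi : (TrivSqZeroExt.inlHom L L (Mx c (ct u)).det⁻¹) * (Mx c' X').det = 1 := by
    rw [hD', ← map_mul, inv_mul_cancel₀ hD, map_one]
  have hU : IsUnit (Mx c' X').det := IsUnit.of_mul_eq_one_right _ hDi
  have hv : ∀ i, vh c' (Fin.succ 0) (Xz c' X' z') i =
      TrivSqZeroExt.inlHom L L (vh c 1 (Xz c (ct u) z) i) := by
    intro i
    have h := congrFun (map_vh c (TrivSqZeroExt.inlHom L L) 1 (Xz c (ct u) z)) i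
    rw [map_Xz, ← hc', ← hX', ← hz'] at h
    exact h.symm
  -- the moved point
  have hm : (fun l i => ph L (ct (lnP u (xi c u z)) l i)) =
      mv c' 0 X' z' DualNumber.eps := by
    rw [map_ct]
    funext l
    refine Fin.cases ?_ (fun l => ?_) l
    · have h1 : mv c' 0 X' z' DualNumber.eps 0 = X' 0 := by
        rw [mv, update_of_ne (Fin.succ_ne_zero 0).symm]
      rw [h1, hX']
      funext i
      simp [ct]
    · obtain rfl : l = 0 := Subsingleton.elim _ _
      rw [mv, update_self]
      funext i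
      refine Fin.cases ?_ (fun i => ?_) i
      · rw [xh_zero, mul_zero, add_zero, one_mul, hX']
        simp [ct, aff]
      · have h2 := hv i
        have h3 : xh c' (Fin.succ 0) (Xz c' X' z') i.succ =
            vh c' (Fin.succ 0) (Xz c' X' z') i := rfl
        have h4 : X' (Fin.succ 0) i.succ = TrivSqZeroExt.inlHom L L (u (0, i)) := by
          rw [hX']
          simp [ct, aff]
        have h5 : ct (fun e => ph L (lnP u (xi c u z) e)) (Fin.succ 0) i.succ =
            ph L (lnP u (xi c u z) (0, i)) := by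
          simp [ct, aff]
        rw [h3, h2, h4, h5, lnP, map_add, map_mul, ph_C, ph_C, ph_X, one_mul]
        rfl
  have hmf : (fun l i => TrivSqZeroExt.fstHom L L L (mv c' 0 X' z' DualNumber.eps l i)) =
      ct u := by
    rw [← hm]
    have h1 := map_ct (Polynomial.evalRingHom (0 : L)) (lnP u (xi c u z))
    have h2 : (fun e => Polynomial.evalRingHom (0 : L) (lnP u (xi c u z) e)) = u := by
      funext e
      simp [lnP]
    rw [h2] at h1
    rw [← h1]
    funext l i
    exact (ph_both _).1
  have hfc : (fun e => TrivSqZeroExt.fstHom L L L (c' e)) = c := by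
    rw [hc']
    funext e
    simp
  obtain ⟨lam, hlam⟩ : ∃ lam, lam = (Mx c' (mv c' 0 X' z' DualNumber.eps)).det *
      TrivSqZeroExt.inlHom L L (Mx c (ct u)).det⁻¹ := ⟨_, rfl⟩
  have hl : (Mx c' (mv c' 0 X' z' DualNumber.eps)).det = lam * (Mx c' X').det := by
    rw [hlam, mul_assoc, hDi, mul_one]
  have hl1 : lam.fst = 1 := by
    have h1 := map_det_Mx c' (TrivSqZeroExt.fstHom L L L).toRingHom
      (mv c' 0 X' z' DualNumber.eps)
    change TrivSqZeroExt.fst _ = (Mx (fun e => TrivSqZeroExt.fstHom L L L (c' e))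
      fun l i => TrivSqZeroExt.fstHom L L L (mv c' 0 X' z' DualNumber.eps l i)).det at h1
    rw [hmf, hfc] at h1
    rw [hlam, TrivSqZeroExt.fst_mul, h1]
    simp [mul_inv_cancel₀ hD]
  obtain ⟨N, hN⟩ := psh_mv c' 0 X' z' DualNumber.eps he hp' hl hU
  have hk : kah c' (Fin.succ 0) X' z' = TrivSqZeroExt.inlHom L L (kah c 1 (ct u) z) := by
    have h := map_kah c (TrivSqZeroExt.inlHom L L) 1 (ct u) z
    rw [← hc', ← hX', ← hz'] at h
    exact h.symm
  have h3 := map_psh (cC c) (ph L) 1 (ct (lnP u (xi c u z))) (Polynomial.C z)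
  have h4 : (fun e => ph L (cC c e)) = c' := by
    rw [hc']
    funext e
    exact ph_C _
  have h5 : ph L (Polynomial.C z) = z' := by
    rw [hz']
    exact ph_C _
  rw [hm, h4, h5] at h3
  rw [dps, ← (ph_both _).2, h3]
  change (psh c' (Fin.succ 0) (mv c' 0 X' z' DualNumber.eps) z').snd = _
  rw [hN, hk]
  simp [TrivSqZeroExt.snd_mul, hl1]

end Pool.Agent.Helper77.H3
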