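import Mathlib
import Pool.Agent.Helper77.H3.Jet
import Pool.Agent.Helper77.H3.Dual

/-!
# Threefolds in `P^3 × P^3`: the chain near the fixed point with unipotent product
-/

set_option autoImplicit false

namespace Pool.Agent.Helper77.H3

open Pool.Agent.Helper64.HK MvPolynomial
open Pool.Agent.Helper28.HN (I aff)
open Pool.Agent.Helper77.HK (dd dd_add dd_mul dd_C dd_X dd_mul_X dd_lin dd_line)
open Pool.Agent.Helper37.HK (Zc cL)

variable {a : Fin (1 + 1) → Fin (2 + 1)} {L : Type*} [Field L]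

/-! ### The derivatives -/

/-- A derivative along a line. -/
theorem dd_pz (u w : T3 → L) (z ζ : L) (P : MvPolynomial (Option T3) L) :
    dd (pz u z) (pz w ζ) P = ((aeval (pz (lnP u w)
      (Polynomial.C z + Polynomial.X * Polynomial.C ζ)) P : Polynomial L).derivative).eval 0 := by
  rw [← dd_line]
  congr 2
  rw [aeval_def]
  congr 1
  funext o
  cases o with
  | none => rfl
  | some e => rfl

theorem dd_PsP (c : Ix a → L) (u w : T3 → L) (z : L) :
    dd (pz u z) (pz w 0) (PsP c) = dps c u z w := by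
  rw [dd_pz, aeval_PsP, Polynomial.C_0, mul_zero, add_zero]
  rfl

theorem dd_BzP (c : Ix a → L) (u w : T3 → L) (z : L) :
    dd (pz u z) (pz w 0) (BzP c) = dBz c u z w := by
  rw [dd_pz, aeval_BzP, Polynomial.C_0, mul_zero, add_zero]
  rfl

theorem lnP_zero (u : T3 → L) : lnP u (fun _ => 0) = fun e => Polynomial.C (u e) := by
  funext e
  rw [lnP, Polynomial.C_0, mul_zero, add_zero]

theorem cCt (u : T3 → L) : (ct fun e => Polynomial.C (u e) : Fin (1 + 1) → I 2 → Polynomial L) =
    fun l i => Polynomial.C ((ct u : Fin (1 + 1) → I 2 → L) l i) :=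
  (map_ct (Polynomial.C : L →+* Polynomial L) u).symm

theorem dd_PsP_z (c : Ix a → L) (u : T3 → L) (z : L) :
    dd (pz u z) (pz (fun _ => 0) 1) (PsP c) = zps c u z := by
  rw [dd_pz, aeval_PsP, lnP_zero, cCt, Polynomial.C_1, mul_one]
  -- compare with `psP` by the substitution `X ↦ z + X`
  have h := map_psh (fun e => Polynomial.C (c e))
    (Polynomial.compRingHom (Polynomial.C z + Polynomial.X)) 1
    (fun l i => Polynomial.C ((ct u : Fin (1 + 1) → I 2 → L) l i)) Polynomial.X
  simp only [Polynomial.coe_compRingHom_apply, Polynomial.C_comp, Polynomial.X_comp] at h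
  have h1 : (fun e => algebraMap L (Polynomial L) (c e)) = fun e => Polynomial.C (c e) := rfl
  rw [h1, ← h, zps, psP, Polynomial.derivative_comp]
  simp

theorem dd_BzP_z (c : Ix a → L) (u : T3 → L) (z : L) :
    dd (pz u z) (pz (fun _ => 0) 1) (BzP c) = Ah c (ct u) := by
  rw [dd_pz, aeval_BzP, lnP_zero, cCt, Polynomial.C_1, mul_one]
  have h1 : (fun e => algebraMap L (Polynomial L) (c e)) = fun e => Polynomial.C (c e) := rfl
  rw [h1, ← map_Ah c Polynomial.C, ← map_Bh c Polynomial.C]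
  simp

/-- The derivative in the direction of a state. -/
theorem dd_state (u w v : T3 → L) (z ζ x y : L) (P : MvPolynomial (Option T3) L) :
    dd (pz u z) (pz (fun e => w e - x * v e) (ζ - y)) P =
      dd (pz u z) (pz w ζ) P - x * dd (pz u z) (pz v 0) P -
        y * dd (pz u z) (pz (fun _ => 0) 1) P := by
  have e : pz (fun e => w e - x * v e) (ζ - y) = fun i => -x * pz v 0 i +
      (fun i => -y * pz (fun _ => 0) 1 i + pz w ζ i) i := by
    funext o
    cases o with
    | none => simp only [pz, Option.elim]; ring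
    | some e => simp only [pz, Option.elim]; ring
  rw [e, dd_lin, dd_lin]
  ring

/-- The directions `w - x ξ` and `ζ - y`. -/
theorem St_eq {c : Ix a → L} {u0 w w' : T3 → L} {z0 ζ ζ' : L} (h : St c u0 z0 w ζ)
    (hw : w = w') (hζ : ζ = ζ') : St c u0 z0 w' ζ' := by
  subst hw hζ
  exact h

section chain

variable [CharZero L] {c : Ix a → L} {u0 w : T3 → L} {z0 ζ : L}

/-- The chain. -/
theorem chain (hD : (Mx c (ct u0)).det ≠ 0) (hA : Ah c (ct u0) ≠ 0)
    (hB : Ah c (ct u0) * z0 + Bh c (ct u0) = 0) (hk : kah c 1 (ct u0) z0 ≠ 0)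
    (hp : psh c 1 (ct u0) z0 = 0)
    (h4 : dBz c u0 z0 (xi c u0 z0) * zps c u0 z0 = kah c 1 (ct u0) z0 * Ah c (ct u0))
    (h : St c u0 z0 w ζ) {φ ψ al be e : L}
    (hφ : φ = 2 * dd (pz u0 z0) (pz w ζ) (PsP c) / kah c 1 (ct u0) z0)
    (hψ : ψ = 2 * dd (pz u0 z0) (pz w ζ) (BzP c) / Ah c (ct u0))
    (hal : al = 2 * dBz c u0 z0 (xi c u0 z0) / Ah c (ct u0))
    (hbe : be = 2 * zps c u0 z0 / kah c 1 (ct u0) z0) (he : e = 2 * ψ - al * φ) (n : ℕ) :
    St c u0 z0 (fun i => w i - (n * φ - n * (n - 1) * (be * e / 4)) * xi c u0 z0 i)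
      (ζ - (n * e - al * (n * φ - n * (n - 1) * (be * e / 4))) / 2) := by
  have hab : al * be = 4 := by
    rw [hal, hbe]
    field_simp
    linear_combination 4 * h4
  induction n with
  | zero =>
    refine St_eq h ?_ ?_
    · funext i
      simp
    · simp
  | succ n ih =>
    obtain ⟨x, hx⟩ : ∃ x, x = n * φ - n * (n - 1) * (be * e / 4) := ⟨_, rfl⟩
    obtain ⟨y, hy⟩ : ∃ y, y = (n * e - al * x) / 2 := ⟨_, rfl⟩
    rw [← hx, ← hy] at ih
    have h1 := step_t hD hk hp ih
    have e1 : 2 * dd (pz u0 z0) (pz (fun i => w i - x * xi c u0 z0 i) (ζ - y)) (PsP c) /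
        kah c 1 (ct u0) z0 = φ - 2 * x - be * y := by
      rw [dd_state, dd_PsP, dd_PsP_z, dps_xi c u0 z0 hD hp, hφ, hbe]
      field_simp
    rw [e1] at h1
    obtain ⟨x', hx'⟩ : ∃ x', x' = φ - x - be * y := ⟨_, rfl⟩
    have h2 : St c u0 z0 (fun i => w i - x' * xi c u0 z0 i) (ζ - y) := by
      refine St_eq h1 ?_ rfl
      funext i
      rw [hx']
      ring
    have h3 := step_z hA hB h2
    have e2 : 2 * dd (pz u0 z0) (pz (fun i => w i - x' * xi c u0 z0 i) (ζ - y)) (BzP c) /
        Ah c (ct u0) = ψ - al * x' - 2 * y := by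
      rw [dd_state, dd_BzP, dd_BzP_z, hψ, hal]
      field_simp
    rw [e2] at h3
    have e3 : x' = ((n + 1 : ℕ) : L) * φ - ((n + 1 : ℕ) : L) * (((n + 1 : ℕ) : L) - 1) *
        (be * e / 4) := by
      rw [hx', hy, hx]
      push_cast
      linear_combination (n * φ - n * (n - 1) * (be * e / 4)) / 2 * hab
    refine St_eq h3 ?_ ?_
    · funext i
      rw [← e3]
    · rw [← e3]
      rw [hy] at hx' ⊢
      push_cast
      linear_combination (al / 2) * hx' - (n * e - al * x) / 4 * hab + (1 / 2) * he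

end chain

end Pool.Agent.Helper77.H3
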