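import Mathlib
import Pool.Agent.Helper77.H3.Chain
import Pool.Agent.Helper66.HK.Mh
import Pool.Agent.Helper24.HK.Cfg
import Pool.Agent.Helper47.H3.Fin

/-!
# Threefolds in `P^3 × P^3`: the end of the chain
-/

set_option autoImplicit false

namespace Pool.Agent.Helper77.H3

open Pool.Agent.Helper64.HK MvPolynomial
open Pool.Agent.Helper28.HN (I aff)
open Pool.Agent.Helper77.HK (dd dd_add dd_mul dd_C dd_X dd_mul_X dd_lin dd_line)
open Pool.Agent.Helper37.HK (Zc cL ct_succ)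
open Pool.Agent.Helper66.HK (exists_mh aeval_mh_one)
open Pool.Agent.Helper24.HK (NoPair)

/-- Polynomials in the affine coordinates of `t` which vanish at the rational points. -/
theorem z_aff3 {k m : ℕ} {a : Fin (k + 1) → Fin (m + 1)} {K : Type} [Field K] {E : Type}
    [Field E] [Algebra K E] {c : Ix a → K} (F : MvPolynomial (Fin k × Fin (m + 1)) K)
    (hF : ∀ Q : Fin (k + 1) → I m → K, OnX c Q → (∀ j, Q j 0 = 1) →
      eval (fun q => Q q.1.succ q.2.succ) F = 0)
    {P : Fin (k + 1) → I m → E} (h : Zc c P) (h0 : P 0 0 ≠ 0)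
    (h1 : ∀ j : Fin k, P j.succ 0 = 1) :
    aeval (fun q : Fin k × Fin (m + 1) => P q.1.succ q.2.succ) F = 0 := by
  obtain ⟨d, H, hd, hH⟩ := exists_mh F
  have key : aeval (fun q : Fin (k + 1) × I m => P q.1 q.2) H = 0 := by
    have h2 := h (map (algebraMap K E) H) fun Q hQ => by
      rw [aeval_map_algebraMap]
      have h3 : aeval (fun e : Fin (k + 1) × I m => algebraMap K E (Q e.1 e.2)) H =
          algebraMap K E (aeval (fun e : Fin (k + 1) × I m => Q e.1 e.2) H) :=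
        aeval_algebraMap_apply E (fun e : Fin (k + 1) × I m => Q e.1 e.2) H
      rw [h3]
      have hQ1 := hH K Q
      by_cases hz : ∃ j, Q j 0 = 0
      · exact (congrArg (algebraMap K E) (hQ1.1 hz)).trans (map_zero _)
      · push Not at hz
        have h2 := hQ1.2 hz
        have h4 := hF (fun j i => (Q j 0)⁻¹ * Q j i) (Pool.Agent.Helper37.HK.OnX_sc hQ _)
          (fun j => inv_mul_cancel₀ (hz j))
        have e : (fun q : Fin k × Fin (m + 1) => Q q.1.succ q.2.succ / Q q.1.succ 0) =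
            fun q => (Q q.1.succ 0)⁻¹ * Q q.1.succ q.2.succ := by
          funext q
          rw [div_eq_inv_mul]
        rw [aeval_eq_eval (fun q : Fin k × Fin (m + 1) => Q q.1.succ q.2.succ / Q q.1.succ 0),
          e, h4, mul_zero] at h2
        exact (congrArg (algebraMap K E) h2).trans (map_zero _)
    rw [aeval_map_algebraMap] at h2
    exact h2
  exact aeval_mh_one P (hH E P).2 h0 h1 key

variable {a : Fin (1 + 1) → Fin (2 + 1)} {L : Type} [Field L]

/-- A polynomial which vanishes at all rational points vanishes at a state. -/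
theorem st_vanish {c : Ix a → L} {u0 w : T3 → L} {z0 ζ : L} (hD : (Mx c (ct u0)).det ≠ 0)
    (h : St c u0 z0 w ζ) : ∃ u : T3 → PowerSeries L,
      (∀ e, PowerSeries.constantCoeff (u e) = u0 e) ∧ (∀ e, PowerSeries.coeff 1 (u e) = w e) ∧
      ∀ F : MvPolynomial T3 L, (∀ Q : Fin (1 + 1) → I 2 → L, OnX c Q → (∀ j, Q j 0 = 1) →
        eval (fun q => Q q.1.succ q.2.succ) F = 0) → aeval u F = 0 := by
  obtain ⟨u, z, hu, hz, hw, hζ, hm⟩ := h
  refine ⟨u, hu, hw, fun F hF => ?_⟩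
  have h1 := z_aff3 F hF hm ?_ ?_
  · have e : (fun q : T3 => Xz (cL (EE L) c) (ct fun e => algebraMap (PowerSeries L) (EE L) (u e))
        (algebraMap (PowerSeries L) (EE L) z) q.1.succ q.2.succ) =
        fun q => algebraMap (PowerSeries L) (EE L) (u q) := by
      funext q
      rw [Xz_succ, ct_succ]
      simp [aff]
    rw [e] at h1
    have h2 : aeval (fun q : T3 => algebraMap (PowerSeries L) (EE L) (u q)) F =
        algebraMap (PowerSeries L) (EE L) (aeval u F) := aeval_algebraMap_apply (EE L) u F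
    rw [h2] at h1
    exact em_inj (h1.trans (map_zero _).symm)
  · have h3 : Xz (cL (EE L) c) (ct fun e => algebraMap (PowerSeries L) (EE L) (u e))
        (algebraMap (PowerSeries L) (EE L) z) 0 0 = (Mx (cL (EE L) c) (ct fun e =>
          algebraMap (PowerSeries L) (EE L) (u e))).det := by
      rw [Xz, Function.update_self, yh_zero]
    rw [h3]
    exact det_ne hu hD
  · intro j
    rw [Xz_succ, ct_succ]
    simp [aff]

/-- The values of the quadratic function are infinite in number. -/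
theorem inf_quad [CharZero L] (φ g : L) (hg : g ≠ 0) :
    (Set.range fun n : ℕ => (n : L) * φ - n * (n - 1) * g).Infinite := by
  obtain ⟨N, hN⟩ : ∃ N : ℕ, ∀ M : ℕ, N < M → φ ≠ M * g := by
    by_cases h : ∃ M0 : ℕ, φ = M0 * g
    · obtain ⟨M0, h0⟩ := h
      refine ⟨M0, fun M hM h1 => ?_⟩
      have h2 : (M0 : L) = M := mul_right_cancel₀ hg (h0.symm.trans h1)
      exact hM.ne (Nat.cast_injective h2)
    · push Not at h
      exact ⟨0, fun M _ => h M⟩
  have hinj : Function.Injective fun n : ℕ =>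
      (((n + N + 1 : ℕ) : L) * φ - ((n + N + 1 : ℕ) : L) * (((n + N + 1 : ℕ) : L) - 1) * g) := by
    intro n m h
    have h1 : ((n : L) - m) * (φ - ((n + m + 2 * N + 1 : ℕ) : L) * g) = 0 := by
      simp only at h
      push_cast at h ⊢
      linear_combination h
    rcases mul_eq_zero.1 h1 with h2 | h2
    · exact Nat.cast_injective (sub_eq_zero.1 h2)
    · exact absurd (sub_eq_zero.1 h2) (hN _ (by omega))
  refine (Set.infinite_range_of_injective hinj).mono ?_
  rintro _ ⟨n, rfl⟩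
  exact ⟨n + N + 1, rfl⟩

theorem dd_fst (u w : T3 → L) (z ζ : L) (P : MvPolynomial (Option T3) L) :
    dd (pz u z) (pz w ζ) P = dd (pz u z) (pz w 0) P + ζ * dd (pz u z) (pz (fun _ => 0) 1) P := by
  have e : pz w ζ = fun i => ζ * pz (fun _ => 0) 1 i + pz w 0 i := by
    funext o
    cases o with
    | none => simp [pz]
    | some e => simp [pz]
  rw [e, dd_lin]
  ring

theorem dd_smul_add (u w v : T3 → L) (z s t : L) (P : MvPolynomial (Option T3) L)
    (h : ∀ e, s * w e + t * v e = 0) :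
    s * dd (pz u z) (pz w 0) P + t * dd (pz u z) (pz v 0) P = 0 := by
  have h0 : dd (pz u z) (fun _ => 0) P = 0 := by
    unfold dd
    simp
  have h1 := dd_lin (pz u z) s (pz w 0) (fun i => t * pz v 0 i + (fun _ => 0) i) P
  have h2 := dd_lin (pz u z) t (pz v 0) (fun _ => 0) P
  rw [h0] at h2
  have e : (fun i => s * pz w 0 i + (fun i => t * pz v 0 i + (fun _ => 0) i) i) =
      fun _ => 0 := by
    funext o
    cases o with
    | none => simp [pz]
    | some e => simpa [pz] using h e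
  rw [e, h0] at h1
  linear_combination -h1 - h2

/-- The chain and the end. -/
theorem chain3 [NumberField L] (c : Ix a → L) (x : Fin 8 → L) (ζ : L) (hE : ∀ i, Eqn3 c x i = 0)
    (hP : Pp3 c x ≠ 0) (h : St c (p0 x) (x 3) (rr x) ζ) : NoPair c := by
  have hB : Ah c (ct (p0 x)) * x 3 + Bh c (ct (p0 x)) = 0 := hE 1
  have hp : psh c 1 (ct (p0 x)) (x 3) = 0 := hE 2
  have h4 : dBz c (p0 x) (x 3) (xi c (p0 x) (x 3)) * zps c (p0 x) (x 3) =
      kah c 1 (ct (p0 x)) (x 3) * Ah c (ct (p0 x)) := sub_eq_zero.1 (hE 3)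
  unfold Pp3 at hP
  obtain ⟨hP, hdl⟩ := mul_ne_zero_iff.1 hP
  obtain ⟨hP, hk⟩ := mul_ne_zero_iff.1 hP
  obtain ⟨hP, -⟩ := mul_ne_zero_iff.1 hP
  obtain ⟨hP, hA⟩ := mul_ne_zero_iff.1 hP
  obtain ⟨hD, -⟩ := mul_ne_zero_iff.1 hP
  obtain ⟨φ, hφ⟩ : ∃ φ, φ = 2 * dd (pz (p0 x) (x 3)) (pz (rr x) ζ) (PsP c) /
    kah c 1 (ct (p0 x)) (x 3) := ⟨_, rfl⟩
  obtain ⟨ψ, hψ⟩ : ∃ ψ, ψ = 2 * dd (pz (p0 x) (x 3)) (pz (rr x) ζ) (BzP c) /
    Ah c (ct (p0 x)) := ⟨_, rfl⟩
  obtain ⟨al, hal⟩ : ∃ al, al = 2 * dBz c (p0 x) (x 3) (xi c (p0 x) (x 3)) /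
    Ah c (ct (p0 x)) := ⟨_, rfl⟩
  obtain ⟨be, hbe⟩ : ∃ be, be = 2 * zps c (p0 x) (x 3) / kah c 1 (ct (p0 x)) (x 3) := ⟨_, rfl⟩
  obtain ⟨e, he⟩ : ∃ e, e = 2 * ψ - al * φ := ⟨_, rfl⟩
  have hch := chain hD hA hB hk hp h4 h hφ hψ hal hbe he
  have hab : al * be = 4 := by
    rw [hal, hbe]
    field_simp
    linear_combination 4 * h4
  have he0 : e ≠ 0 := by
    have h5 : e * (Ah c (ct (p0 x)) * kah c 1 (ct (p0 x)) (x 3)) =
        4 * (kah c 1 (ct (p0 x)) (x 3) * dBz c (p0 x) (x 3) (rr x) -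
          dBz c (p0 x) (x 3) (xi c (p0 x) (x 3)) * dps c (p0 x) (x 3) (rr x)) := by
      rw [he, hψ, hφ, hal, dd_fst, dd_fst (P := PsP c), dd_PsP, dd_BzP, dd_PsP_z, dd_BzP_z]
      field_simp
      linear_combination (-4 * ζ) * h4
    intro h0
    rw [h0, zero_mul] at h5
    have := mul_eq_zero.1 h5.symm
    rcases this with h6 | h6
    · norm_num at h6
    · exact hdl h6
  have hbe0 : be ≠ 0 := by
    intro h0
    rw [h0, mul_zero] at hab
    norm_num at hab
  have hg : be * e / 4 ≠ 0 := div_ne_zero (mul_ne_zero hbe0 he0) (by norm_num)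
  -- the directions are independent
  have hli : LinearIndependent L ![rr x, xi c (p0 x) (x 3)] := by
    rw [LinearIndependent.pair_iff]
    intro s t hst
    have hst' : ∀ e, s * rr x e + t * xi c (p0 x) (x 3) e = 0 := fun e => congrFun hst e
    have h5 := dd_smul_add (p0 x) (rr x) (xi c (p0 x) (x 3)) (x 3) s t (PsP c) hst'
    have h6 := dd_smul_add (p0 x) (rr x) (xi c (p0 x) (x 3)) (x 3) s t (BzP c) hst'
    rw [dd_PsP, dd_PsP, dps_xi c (p0 x) (x 3) hD hp] at h5
    rw [dd_BzP, dd_BzP] at h6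
    have hs : s = 0 := by
      have h7 : s * (kah c 1 (ct (p0 x)) (x 3) * dBz c (p0 x) (x 3) (rr x) -
          dBz c (p0 x) (x 3) (xi c (p0 x) (x 3)) * dps c (p0 x) (x 3) (rr x)) = 0 := by
        linear_combination (kah c 1 (ct (p0 x)) (x 3)) * h6 -
          (dBz c (p0 x) (x 3) (xi c (p0 x) (x 3))) * h5
      exact (mul_eq_zero.1 h7).resolve_right hdl
    refine ⟨hs, ?_⟩
    rw [hs, zero_mul, zero_add] at h5
    exact (mul_eq_zero.1 h5).resolve_right hk
  intro F1 F2 hF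
  by_contra hno
  push Not at hno
  refine Pool.Agent.Helper47.H3.fin3 F1 F2 hF (p0 x) (rr x) (xi c (p0 x) (x 3)) hli _
    (inf_quad φ (be * e / 4) hg) ?_
  rintro _ ⟨n, rfl⟩
  obtain ⟨u, hu, hw, hv⟩ := st_vanish hD (hch n)
  exact ⟨u, hu, hw, hv F1 fun Q hQ h1 => (hno Q hQ h1).1, hv F2 fun Q hQ h1 => (hno Q hQ h1).2⟩

end Pool.Agent.Helper77.H3
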