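import Mathlib

/-!
# The square root of a power series
-/

set_option autoImplicit false

namespace Pool.Agent.Helper77.H3

variable {L : Type*} [Field L]

/-- The coefficients of the square root. -/
noncomputable def rtc (q : ℕ → L) (w : L) : ℕ → L
  | 0 => w
  | (n + 1) => (q (n + 1) - ∑ i : Fin n, rtc q w (i.1 + 1) * rtc q w (n - i.1)) / (2 * w)
termination_by n => n
decreasing_by all_goals omega

theorem exists_root (h2 : (2 : L) ≠ 0) (q : PowerSeries L) (w : L)
    (hw : w ^ 2 = PowerSeries.constantCoeff q) (hw0 : w ≠ 0) :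
    ∃ U : PowerSeries L, U ^ 2 = q ∧ PowerSeries.constantCoeff U = w := by
  obtain ⟨f, hf⟩ : ∃ f, f = rtc (fun n => PowerSeries.coeff n q) w := ⟨_, rfl⟩
  have h0 : f 0 = w := by rw [hf, rtc]
  have h1 : ∀ n, f (n + 1) = (PowerSeries.coeff (n + 1) q -
      ∑ i ∈ Finset.range n, f (i + 1) * f (n - i)) / (2 * w) := by
    intro n
    rw [hf, rtc, Finset.sum_range fun i => rtc (fun n => PowerSeries.coeff n q) w (i + 1) *
      rtc (fun n => PowerSeries.coeff n q) w (n - i)]
  refine ⟨PowerSeries.mk f, ?_, ?_⟩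
  · ext n
    rw [sq, PowerSeries.coeff_mul]
    cases n with
    | zero =>
      simp [PowerSeries.coeff_mk, h0, ← sq, hw]
    | succ n =>
      rw [Finset.Nat.sum_antidiagonal_eq_sum_range_succ (fun i j => PowerSeries.coeff i
        (PowerSeries.mk f) * PowerSeries.coeff j (PowerSeries.mk f)), Finset.sum_range_succ,
        Finset.sum_range_succ']
      simp only [PowerSeries.coeff_mk, Nat.sub_self, Nat.sub_zero, h0]
      have e : ∀ i ∈ Finset.range n, f (i + 1) * f (n + 1 - (i + 1)) = f (i + 1) * f (n - i) := by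
        intro i _
        rw [Nat.add_sub_add_right]
      rw [Finset.sum_congr rfl e, h1 n]
      have h2w : 2 * w ≠ 0 := mul_ne_zero h2 hw0
      field_simp
      ring
  · rw [← PowerSeries.coeff_zero_eq_constantCoeff_apply, PowerSeries.coeff_mk, h0]

end Pool.Agent.Helper77.H3
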