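import Mathlib
import Pool.Agent.Helper77.H3.Cfg
import Pool.Agent.Helper77.H3.Jet
import Pool.Agent.Helper77.H3.Root
import Pool.Agent.Helper64.HK.Curve3
import Pool.Agent.Helper82.H3.Nat
import Pool.Agent.Helper82.H3.NS
import Pool.Agent.Helper15.H3.Quart
import Pool.Agent.Helper69.H3.Asm

/-!
# Threefolds in `P^3 × P^3`: the first state
-/

set_option autoImplicit false

namespace Pool.Agent.Helper77.H3

open Pool.Agent.Helper64.HK
open Pool.Agent.Helper28.HN (I aff)
open Pool.Agent.Helper37.HK (Zc cL)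

/-- A square root in a finite extension. -/
theorem exists_sqrt {K : Type} [Field K] [NumberField K] (t : K) :
    ∃ (L : Type) (_ : Field L) (_ : NumberField L) (_ : Algebra K L) (w : L),
      w ^ 2 = algebraMap K L t := by
  obtain ⟨w, hw⟩ := IsAlgClosed.exists_pow_nat_eq (algebraMap K (AlgebraicClosure K) t)
    (n := 2) (by norm_num)
  have hi : IsIntegral K w := Algebra.IsIntegral.isIntegral w
  have hf : FiniteDimensional K (IntermediateField.adjoin K {w}) :=
    IntermediateField.adjoin.finiteDimensional hi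
  refine ⟨IntermediateField.adjoin K {w}, inferInstance, NumberField.of_module_finite K _,
    inferInstance, ⟨w, IntermediateField.mem_adjoin_simple_self K w⟩, ?_⟩
  apply Subtype.ext
  exact hw

section

variable {K L : Type} [Field K] [Field L] (σ : K →+* L)

theorem eval₂_em (p : Polynomial K) :
    p.eval₂ ((algebraMap L (EE L)).comp σ) (algebraMap (PowerSeries L) (EE L) PowerSeries.X) =
      algebraMap (PowerSeries L) (EE L) ((p.map σ : Polynomial L) : PowerSeries L) := by
  have h : Polynomial.eval₂RingHom ((algebraMap L (EE L)).comp σ)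
      (algebraMap (PowerSeries L) (EE L) PowerSeries.X) =
      (algebraMap (PowerSeries L) (EE L)).comp
        ((Polynomial.coeToPowerSeries.ringHom).comp (Polynomial.mapRingHom σ)) := by
    refine Polynomial.ringHom_ext (fun a => ?_) ?_
    · simp only [Polynomial.coe_eval₂RingHom, Polynomial.eval₂_C, RingHom.comp_apply,
        Polynomial.coe_mapRingHom, Polynomial.map_C, Polynomial.coeToPowerSeries.ringHom_apply,
        Polynomial.coe_C]
      exact IsScalarTower.algebraMap_apply L (PowerSeries L) (EE L) (σ a)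
    · simp
  exact congrArg (fun f : Polynomial K →+* EE L => f p) h

end

variable {a : Fin (1 + 1) → Fin (2 + 1)}

theorem start3_of {K : Type} [Field K] [NumberField K] (c : Ix a → K) (x : Fin 8 → K)
    (h : Cfg3 c x) (w : K) (hw : w ^ 2 = (b3 c x).coeff 2) :
    ∃ (L : Type) (_ : Field L) (_ : NumberField L) (_ : Algebra K L) (ζ : L),
      St (fun e => algebraMap K L (c e)) (fun e => algebraMap K L (p0 x e))
        (algebraMap K L (x 3)) (fun e => algebraMap K L (rr x e)) ζ := by
  obtain ⟨q, hq, hq4, hq0, hqn⟩ := Pool.Agent.Helper15.H3.quart3 c x h.hE h.hP (b3 c x)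
    (sq_sub (cC c) (ct (lnP (p0 x) (rr x)))) (Pool.Agent.Helper82.H3.deg_line c _ _) h.hG
  have hq2 : (b3 c x).coeff 2 = q.coeff 0 := by
    have e : (Polynomial.X * (1 - Polynomial.X)) ^ 2 * q =
        Polynomial.X ^ 2 * ((1 - Polynomial.X) ^ 2 * q) := by ring
    rw [hq, e]
    have e2 := Polynomial.coeff_X_pow_mul ((1 - Polynomial.X) ^ 2 * q) 2 0
    rw [zero_add] at e2
    rw [e2, Polynomial.mul_coeff_zero, Polynomial.coeff_zero_eq_eval_zero]
    simp
  obtain ⟨L, iL, nL, aL, H⟩ := c3 c (ct (lnP (p0 x) (rr x))) (Polynomial.X * (1 - Polynomial.X))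
    q hq hq4 hqn
  refine ⟨L, iL, nL, aL, ?_⟩
  obtain ⟨σ, hσ⟩ : ∃ σ : K →+* L, σ = algebraMap K L := ⟨_, rfl⟩
  obtain ⟨hD, hA⟩ := Pool.Agent.Helper82.H3.pp3_facts c x h.hP
  have hB : Ah c (ct (p0 x)) * x 3 + Bh c (ct (p0 x)) = 0 := h.hE 1
  have hw0 : w ≠ 0 := by
    rintro rfl
    apply hq0
    rw [← hq2, ← hw]
    ring
  obtain ⟨U, hU, hU0⟩ := exists_root (two_ne_zero (α := L))
    ((q.map σ : Polynomial L) : PowerSeries L) (σ w) (by
      rw [← map_pow, hw, hq2, ← PowerSeries.coeff_zero_eq_constantCoeff_apply,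
        Polynomial.coeff_coe, Polynomial.coeff_map]) (by
      intro h0
      exact hw0 (σ.injective (by rw [h0, map_zero])))
  obtain ⟨u, hu⟩ : ∃ u : T3 → PowerSeries L, u = fun e => PowerSeries.C (σ (p0 x e)) +
    PowerSeries.X * PowerSeries.C (σ (rr x e)) := ⟨_, rfl⟩
  have hu0 : ∀ e, PowerSeries.constantCoeff (u e) = σ (p0 x e) := by
    intro e
    rw [hu]
    simp
  have hu1 : ∀ e, PowerSeries.coeff 1 (u e) = σ (rr x e) := by
    intro e
    rw [hu]
    simp
  obtain ⟨c', hc'⟩ : ∃ c' : Ix a → L, c' = fun e => σ (c e) := ⟨_, rfl⟩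
  have hcc := cc_ct hu0
  have hA0 : PowerSeries.constantCoeff (Ah (cR c') (ct u)) = σ (Ah c (ct (p0 x))) := by
    rw [map_Ah, cc_cR, hcc, map_Ah, map_ct, hc']
  have hB0 : PowerSeries.constantCoeff (Bh (cR c') (ct u)) = σ (Bh c (ct (p0 x))) := by
    rw [map_Bh, cc_cR, hcc, map_Bh, map_ct, hc']
  have hAne : PowerSeries.constantCoeff (Ah (cR c') (ct u)) ≠ 0 := by
    rw [hA0]
    intro h0
    exact hA (σ.injective (by rw [h0, map_zero]))
  obtain ⟨z, hz⟩ : ∃ z, z = (- Bh (cR c') (ct u) + (Mx (cR c') (ct u)).det *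
    (PowerSeries.X * (1 - PowerSeries.X)) * U) * (Ah (cR c') (ct u))⁻¹ := ⟨_, rfl⟩
  have hAz : Ah (cR c') (ct u) * z + Bh (cR c') (ct u) = (Mx (cR c') (ct u)).det *
      (PowerSeries.X * (1 - PowerSeries.X)) * U := by
    have h1 := PowerSeries.inv_mul_cancel _ hAne
    rw [hz]
    linear_combination (- Bh (cR c') (ct u) + (Mx (cR c') (ct u)).det *
      (PowerSeries.X * (1 - PowerSeries.X)) * U) * h1
  have hz0 : PowerSeries.constantCoeff z = σ (x 3) := by
    have h1 := congrArg PowerSeries.constantCoeff hAz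
    simp only [map_add, map_mul, PowerSeries.constantCoeff_X, zero_mul, mul_zero] at h1
    rw [hA0, hB0] at h1
    have h2 := congrArg σ hB
    rw [map_add, map_mul, map_zero] at h2
    refine mul_left_cancel₀ (a := σ (Ah c (ct (p0 x)))) ?_ ?_
    · rw [← hA0]
      exact hAne
    · linear_combination h1 - h2
  -- the point
  have hemC : ∀ y : L, algebraMap L (EE L) y =
      algebraMap (PowerSeries L) (EE L) (PowerSeries.C y) := fun y =>
    IsScalarTower.algebraMap_apply L (PowerSeries L) (EE L) y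
  have hP : (fun l i => ((ct (lnP (p0 x) (rr x)) : Fin (1 + 1) → I 2 → Polynomial K) l i).eval₂
      ((algebraMap L (EE L)).comp (algebraMap K L))
      (algebraMap (PowerSeries L) (EE L) PowerSeries.X)) =
      ct fun e => algebraMap (PowerSeries L) (EE L) (u e) := by
    have h1 := map_ct (Polynomial.eval₂RingHom ((algebraMap L (EE L)).comp (algebraMap K L))
      (algebraMap (PowerSeries L) (EE L) PowerSeries.X)) (lnP (p0 x) (rr x))
    refine Eq.trans h1 ?_
    congr 1
    funext e
    rw [hu, lnP, ← hσ]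
    simp only [Polynomial.coe_eval₂RingHom, Polynomial.eval₂_C, Polynomial.eval₂_X,
      RingHom.comp_apply, map_add, map_mul, hemC]
  have hcL : (fun e => algebraMap L (EE L) (algebraMap K L (c e))) = cL (EE L) c' := by
    rw [hc', hσ]
    rfl
  have hAE := map_Ah (cR c') (algebraMap (PowerSeries L) (EE L)) (ct u)
  have hBE := map_Bh (cR c') (algebraMap (PowerSeries L) (EE L)) (ct u)
  have hDE := map_det_Mx (cR c') (algebraMap (PowerSeries L) (EE L)) (ct u)
  rw [em_cR, em_ct] at hAE hBE hDE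
  have key := H (EE L) (algebraMap (PowerSeries L) (EE L) PowerSeries.X)
    (algebraMap (PowerSeries L) (EE L) U) (algebraMap (PowerSeries L) (EE L) z) ?_ ?_ ?_
  · refine ⟨PowerSeries.coeff 1 z, u, z, ?_, ?_, ?_, rfl, ?_⟩
    · intro e
      rw [← hσ]
      exact hu0 e
    · rw [← hσ]
      exact hz0
    · intro e
      rw [← hσ]
      exact hu1 e
    · rw [hP] at key
      exact key
  · rw [← map_pow, hU, ← hσ, eval₂_em]
  · rw [hP, hcL, ← hAE]
    exact em_ne hAne
  · have hX : (((Polynomial.X * (1 - Polynomial.X) : Polynomial K).map σ : Polynomial L) :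
        PowerSeries L) = PowerSeries.X * (1 - PowerSeries.X) := by
      simp only [Polynomial.map_mul, Polynomial.map_sub, Polynomial.map_X, Polynomial.map_one,
        Polynomial.coe_mul, Polynomial.coe_sub, Polynomial.coe_X, Polynomial.coe_one]
    rw [hP, hcL, ← hAE, ← hBE, ← hDE, ← map_mul, ← map_add, hAz, ← hσ, eval₂_em, hX, ← map_mul,
      ← map_mul]

theorem start3 {K : Type} [Field K] [NumberField K] (c : Ix a → K) (x : Fin 8 → K)
    (h : Cfg3 c x) :
    ∃ (L : Type) (_ : Field L) (_ : NumberField L) (_ : Algebra K L) (ζ : L),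
      St (fun e => algebraMap K L (c e)) (fun e => algebraMap K L (p0 x e))
        (algebraMap K L (x 3)) (fun e => algebraMap K L (rr x e)) ζ := by
  obtain ⟨K1, i1, n1, a1, w, hw⟩ := exists_sqrt ((b3 c x).coeff 2)
  have hb := Pool.Agent.Helper69.H3.map_b3 (algebraMap K K1) c x
  have h1 : Cfg3 (fun e => algebraMap K K1 (c e)) (fun j => algebraMap K K1 (x j)) := by
    refine ⟨fun i => ?_, ?_, ?_⟩
    · rw [← Pool.Agent.Helper82.H3.map_Eqn3, h.hE i, map_zero]
    · rw [← Pool.Agent.Helper82.H3.map_Pp3]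
      exact fun h0 => h.hP ((algebraMap K K1).injective (by rw [h0, map_zero]))
    · rw [← hb, ← Pool.Agent.Helper82.H3.map_G3]
      exact fun h0 => h.hG ((algebraMap K K1).injective (by rw [h0, map_zero]))
  obtain ⟨L, iL, nL, aL, ζ, hζ⟩ := start3_of _ _ h1 w (by
    rw [hw, ← hb, Polynomial.coeff_map])
  let _ : Algebra K L := ((algebraMap K1 L).comp (algebraMap K K1)).toAlgebra
  refine ⟨L, iL, nL, inferInstance, ζ, ?_⟩
  have e1 := Pool.Agent.Helper82.H3.map_p0 (algebraMap K K1) x
  have e2 := Pool.Agent.Helper82.H3.map_rr (algebraMap K K1) x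
  rw [← e1, ← e2] at hζ
  exact hζ

end Pool.Agent.Helper77.H3
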