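import Mathlib
import Pool.Agent.Helper69.H3.Exs
import Pool.Agent.Helper77.H3.Start

/-!
# Threefolds in `P^3 × P^3`: the result for `k = 1`, `m = 2`, all types
-/

set_option autoImplicit false

namespace Pool.Agent.Helper77.H3

open Pool.Agent.Helper16.N4 (NP)

theorem nopair3 (a : Fin (1 + 1) → Fin (2 + 1)) : NP a :=
  Pool.Agent.Helper69.H3.nopair3_of_start (fun _ K _ _ c x h => start3 c x h) a

end Pool.Agent.Helper77.H3
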