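import Mathlib
import Pool.Agent.Helper77.H3.Defs
import Pool.Agent.Helper24.HK.Cfg
import Pool.Agent.Helper37.HK.Zch

/-!
# Threefolds in `P^3 × P^3`: the pieces (frames with sorry; proofs go to other files, in the
namespace of the typist)
-/

set_option autoImplicit false

namespace Pool.Agent.Helper77.H3.Pieces

open Pool.Agent.Helper64.HK Pool.Agent.Helper24.HK
open Pool.Agent.Helper28.HN (I aff)

/-! ## NAT3 -/

section nat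

variable {a : Fin (1 + 1) → Fin (2 + 1)} {S S' : Type*} [CommRing S] [CommRing S'] (f : S →+* S')
  (c : Ix a → S) (x : Fin 8 → S)

theorem map_Eqn3 (i : Fin 8) : f (Eqn3 c x i) = Eqn3 (fun e => f (c e)) (fun j => f (x j)) i := by
  sorry
theorem map_Pp3 : f (Pp3 c x) = Pp3 (fun e => f (c e)) (fun j => f (x j)) := by sorry
theorem map_G3 (b : Polynomial S) : f (G3 b) = G3 (b.map f) := by sorry

end nat

/-! ## EXIST3: existence from an example. `b0` is the polynomial `bd` of helper64 on the line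
through the two points; `nb` is its naturality. -/

theorem exists_cfg3_of {a : Fin (1 + 1) → Fin (2 + 1)}
    (b : ∀ {S : Type} [CommRing S], (Ix a → S) → (Fin 8 → S) → Polynomial S)
    (nb : ∀ {S S' : Type} [CommRing S] [CommRing S'] (f : S →+* S') (c : Ix a → S) (x : Fin 8 → S),
      (b c x).map f = b (fun e => f (c e)) (fun j => f (x j)))
    (c0 : Ix a → ℚ) (x0 : Fin 8 → ℚ)
    (h1 : ∀ i, Eqn3 c0 x0 i = 0) (h2 : Pp3 c0 x0 ≠ 0) (h3 : G3 (b c0 x0) ≠ 0)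
    (h4 : (Matrix.of fun i j : Fin 8 => MvPolynomial.eval x0 (MvPolynomial.pderiv j
      (Eqn3 (fun e => MvPolynomial.C (c0 e)) MvPolynomial.X i : MvPolynomial (Fin 8) ℚ))).det ≠ 0) :
    ∃ Δ : MvPolynomial (Ix a) ℚ, Δ ≠ 0 ∧
    ∀ (K : Type) [Field K] [NumberField K] (c : Ix a → K), MvPolynomial.aeval c Δ ≠ 0 →
      ∃ (L : Type) (_ : Field L) (_ : NumberField L) (_ : Algebra K L) (x : Fin 8 → L),
        (∀ i, Eqn3 (fun e => algebraMap K L (c e)) x i = 0) ∧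
        Pp3 (fun e => algebraMap K L (c e)) x ≠ 0 ∧ G3 (b (fun e => algebraMap K L (c e)) x) ≠ 0 := by
  sorry

/-! ## EX1: the example of type 1, `a = ![0, 0]`. With `x` the factor `1` and `y` the factor `0`:
`E 1 = x0 y2 + x1 y0`, `E 2 = x0 y3 + x2 y0`,
`E 0 = x0^2 y1^2 + x0 x1 (2 y0 y1 + 2 y1 y2 + y1^2) - x1^2 (y0 + y2)^2 + x0 x2 y0^2
  + 2 x0 x3 y0 y1 + x3^2 (y0^2 + y0 y1) + x1 x3 y0 y2`, `x0 = (0,0,0,0,1,0,0,0)`.
With `u = (p, q, r)`: `det Mx = 1`, `Ah = 2 + 2 p`, `Bh = 2 p + 2 r - 2 p^2 + r^2`,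
`Ch = 2 q - 2 p^2 + 2 r^2 - 2 p^2 r + 4 p^3 - 2 p^4`, `vh = (0, 0, 1)`,
`psh = 2 r + 2 z - p^2 + 2 r z`, `kah = 2 + 2 z`; on the line `Bh^2 - Ah Ch = 4 s^2 (1-s)^2 (2+s)`.
Jacobian (rows = equations) `[0,2,0,0,0,0,0,0], [2,0,2,2,0,0,0,0], [0,0,2,2,0,0,0,0],
[-4,0,8,-4,0,0,0,0], [-4,-2,0,4,0,2,0,0], [0,0,0,0,0,2,-2,0], [0,0,0,0,-2,0,2,4],
[0,-2,2,0,-4,2,-6,-4]`, determinant `-9216`. -/

theorem ex1 : ∃ c0 : Ix (![0, 0] : Fin (1 + 1) → Fin (2 + 1)) → ℚ, ∃ x0 : Fin 8 → ℚ,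
    (∀ i, Eqn3 c0 x0 i = 0) ∧ Pp3 c0 x0 ≠ 0 ∧
    (Mx (cC c0) (ct (lnP (p0 x0) (rr x0)))).det = 1 ∧
    G3 (Bh (cC c0) (ct (lnP (p0 x0) (rr x0))) ^ 2 - Ah (cC c0) (ct (lnP (p0 x0) (rr x0))) *
      Ch (cC c0) (ct (lnP (p0 x0) (rr x0)))) ≠ 0 ∧
    (Matrix.of fun i j : Fin 8 => MvPolynomial.eval x0 (MvPolynomial.pderiv j
      (Eqn3 (fun e => MvPolynomial.C (c0 e)) MvPolynomial.X i : MvPolynomial (Fin 8) ℚ))).det ≠ 0 := by
  sorry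

/-! ## EX2: the example of type 2, `a = ![0, 1]`:
`E 0 = x0 (y0 y2 + y1^2 + y2^2 - y3^2) + x1 y0^2 + 2 x2 y0^2`,
`E 1 = x0^2 y2 + y0 (x0 x1 - x1^2 - x3^2 + x1 x3) + y1 (2 x0 x3 + x3^2 + x0 x1 - x1^2)`,
`E 2 = x0 y3 + (x1 + x2) y0`, `x0 = (0,0,0,0,1,0,0,0)`.
`det Mx = 1`, `Y0 = (1, 0, -p + p^2 - p r + r^2, -p - q)`, `Y1 = (0, 1, -p + p^2 - 2 r - r^2, 0)`,
`vh = (0, 0, -1)` (at `y0 = 1`; `- y0^3` in general), `psh = -p + 2 r - 2 z - 2 r z`,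
`kah = -2 + 2 z`; on the line `Ah = 2 + 2 s^2 (1-s)^2`, `Bh = - s (1-s) (1 - 2 s + 2 s^2)`,
`Ch = 2 s^2 (1-s)^2`, `Bh^2 - Ah Ch = s^2 (1-s)^2 (-3 - 4 s + 4 s^2)`.
Jacobian `[0,4,0,0,0,0,0,0], [-1,0,-2,2,0,0,0,0], [-1,0,2,-2,0,0,0,0], [8,0,-8,-4,0,0,0,0],
[4,-8,-2,-2,0,4,0,0], [0,0,0,0,0,0,-2,0], [0,0,0,0,1,0,-2,2], [0,0,2,0,4,-4,-8,2]`,
determinant `-9216`. -/

theorem ex2 : ∃ c0 : Ix (![0, 1] : Fin (1 + 1) → Fin (2 + 1)) → ℚ, ∃ x0 : Fin 8 → ℚ,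
    (∀ i, Eqn3 c0 x0 i = 0) ∧ Pp3 c0 x0 ≠ 0 ∧
    (Mx (cC c0) (ct (lnP (p0 x0) (rr x0)))).det = 1 ∧
    G3 (Bh (cC c0) (ct (lnP (p0 x0) (rr x0))) ^ 2 - Ah (cC c0) (ct (lnP (p0 x0) (rr x0))) *
      Ch (cC c0) (ct (lnP (p0 x0) (rr x0)))) ≠ 0 ∧
    (Matrix.of fun i j : Fin 8 => MvPolynomial.eval x0 (MvPolynomial.pderiv j
      (Eqn3 (fun e => MvPolynomial.C (c0 e)) MvPolynomial.X i : MvPolynomial (Fin 8) ℚ))).det ≠ 0 := by
  sorry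

/-! ## QUART3: the quartic. `b` is `bd` on the line. -/

section quart

variable {a : Fin (1 + 1) → Fin (2 + 1)} {K : Type*} [Field K] [CharZero K]

theorem quart3 (c : Ix a → K) (x : Fin 8 → K) (h : ∀ i, Eqn3 c x i = 0) (hP : Pp3 c x ≠ 0)
    (b : Polynomial K) (hb : Bh (cC c) (ct (lnP (p0 x) (rr x))) ^ 2 -
      Ah (cC c) (ct (lnP (p0 x) (rr x))) * Ch (cC c) (ct (lnP (p0 x) (rr x))) =
        (Mx (cC c) (ct (lnP (p0 x) (rr x)))).det ^ 2 * b) (hd : b.natDegree ≤ 8) (hG : G3 b ≠ 0) :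
    ∃ q : Polynomial K, b = (Polynomial.X * (1 - Polynomial.X)) ^ 2 * q ∧ q.natDegree ≤ 4 ∧
      q.coeff 0 ≠ 0 ∧ ∀ (e : K) (r : Polynomial K), q ≠ Polynomial.C e * r ^ 2 := by
  sorry

end quart

/-! ## FIN3: the end -/

theorem fin3 {L : Type} [Field L] (F1 F2 : MvPolynomial T3 L) (h : IsRelPrime F1 F2)
    (u0 w v : T3 → L) (hwv : LinearIndependent L ![w, v]) (A : Set L) (hA : A.Infinite)
    (H : ∀ α ∈ A, ∃ u : T3 → PowerSeries L, (∀ e, PowerSeries.constantCoeff (u e) = u0 e) ∧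
      (∀ e, PowerSeries.coeff 1 (u e) = w e - α * v e) ∧
      MvPolynomial.aeval u F1 = 0 ∧ MvPolynomial.aeval u F2 = 0) : False := by
  sorry

/-! ## PERM: permutations of the forms, for all `k`, `m` -/

section perm

variable {k m : ℕ} {a : Fin (k + 1) → Fin (m + 1)}

/-- If the statement of `nopair` holds for `σ ∘ a`, it holds for `a`. -/
theorem nopair_perm (σ : Equiv.Perm (Fin (m + 1)))
    (h : ∃ Δ : MvPolynomial (Ix (σ ∘ a)) ℚ, Δ ≠ 0 ∧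
      ∀ (K : Type) [Field K] [NumberField K] (c : Ix (σ ∘ a) → K), MvPolynomial.aeval c Δ ≠ 0 →
        ∃ (L : Type) (_ : Field L) (_ : NumberField L) (_ : Algebra K L),
          NoPair (fun e => algebraMap K L (c e))) :
    ∃ Δ : MvPolynomial (Ix a) ℚ, Δ ≠ 0 ∧
      ∀ (K : Type) [Field K] [NumberField K] (c : Ix a → K), MvPolynomial.aeval c Δ ≠ 0 →
        ∃ (L : Type) (_ : Field L) (_ : NumberField L) (_ : Algebra K L),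
          NoPair (fun e => algebraMap K L (c e)) := by
  sorry

/-- The two types. -/
theorem exists_perm (a : Fin (1 + 1) → Fin (2 + 1)) : ∃ σ : Equiv.Perm (Fin (2 + 1)),
    σ ∘ a = ![0, 0] ∨ σ ∘ a = ![0, 1] := by
  sorry

end perm

end Pool.Agent.Helper77.H3.Pieces
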