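import Mathlib
import Pool.Agent.Helper77.H3.Cfg
import Pool.Agent.Helper77.H3.Chain
import Pool.Agent.Helper64.HK.Curve3
import Pool.Agent.Helper28.N4.Perm
import Pool.Agent.Helper16.N4.NSPerm

/-!
# Threefolds in `P^3 × P^3`: the last pieces (frames with sorry)
-/

set_option autoImplicit false

namespace Pool.Agent.Helper77.H3.Pieces

open Pool.Agent.Helper64.HK Pool.Agent.Helper24.HK
open Pool.Agent.Helper16.N4 (NP)
open Pool.Agent.Helper77.HK (NS Dp)
open Pool.Agent.Helper28.HN (I aff)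

/-! ## START (helper64): from `quart3`, `c3`, a square root of `q` in the power series -/

theorem start3 {a : Fin (1 + 1) → Fin (2 + 1)} {K : Type} [Field K] [NumberField K]
    (c : Ix a → K) (x : Fin 8 → K) (h : Cfg3 c x) :
    ∃ (L : Type) (_ : Field L) (_ : NumberField L) (_ : Algebra K L) (ζ : L),
      St (fun e => algebraMap K L (c e)) (fun e => algebraMap K L (p0 x e))
        (algebraMap K L (x 3)) (fun e => algebraMap K L (rr x e)) ζ := by
  sorry

/-! ## CHAIN (helper77) -/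

theorem chain3 {a : Fin (1 + 1) → Fin (2 + 1)} {L : Type} [Field L] [NumberField L]
    (c : Ix a → L) (x : Fin 8 → L) (ζ : L) (hE : ∀ i, Eqn3 c x i = 0) (hP : Pp3 c x ≠ 0)
    (h : St c (p0 x) (x 3) (rr x) ζ) : NoPair c := by
  sorry

/-! ## NS3 (helper82): from `quart3` on the line (`q` is not a constant times a square) -/

theorem ns_cfg3 {a : Fin (1 + 1) → Fin (2 + 1)} {L : Type} [Field L] [NumberField L]
    (c : Ix a → L) (x : Fin 8 → L) (h : Cfg3 c x) :
    NS c ∧ Dp c ≠ 0 := by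
  sorry

/-! ## ASM3 (helper69) -/

/-- From `ex1`, `exists_cfg3_of`, `map_bd`, `sq_sub`. -/
theorem ex3_one : Ex3 ![0, 0] := by
  sorry

/-- From `ex2`, `exists_cfg3_of`, `map_bd`, `sq_sub`. -/
theorem ex3_two : Ex3 ![0, 1] := by
  sorry

/-- From `start3`, `chain3`. -/
theorem np_of_ex3 {a : Fin (1 + 1) → Fin (2 + 1)} (h : Ex3 a) : NP a := by
  sorry

/-- From `np_perm` and the two types. -/
theorem nopair3 (a : Fin (1 + 1) → Fin (2 + 1)) : NP a := by
  sorry

/-- From `ns_cfg3`, `ns_of_map`, `Dp_ne_of_map`. -/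
theorem ns_of_ex3 {a : Fin (1 + 1) → Fin (2 + 1)} (h : Ex3 a) :
    ∃ Δ : MvPolynomial (Ix a) ℚ, Δ ≠ 0 ∧
      ∀ (K : Type) [Field K] [NumberField K] (c : Ix a → K), MvPolynomial.aeval c Δ ≠ 0 →
        NS c ∧ Dp c ≠ 0 := by
  sorry

/-- From `ns_perm` and the two types. -/
theorem ns3 (a : Fin (1 + 1) → Fin (2 + 1)) :
    ∃ Δ : MvPolynomial (Ix a) ℚ, Δ ≠ 0 ∧
      ∀ (K : Type) [Field K] [NumberField K] (c : Ix a → K), MvPolynomial.aeval c Δ ≠ 0 →
        NS c ∧ Dp c ≠ 0 := by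
  sorry

end Pool.Agent.Helper77.H3.Pieces
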